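import Pool.Agent.D0H64.MX.Stm2
import Pool.Agent.TH228.J3101

set_option autoImplicit false

/-! Project MX (helper64), module ITR: asymptotics give the inherited property. -/

namespace Pool.Agent.D0H52.MX

open NumberField Filter Topology Pool.Agent.TH444.ML Pool.Agent.D0H64.MX
open Pool.Agent.TH228.J3101 (nf dsc_eq one_le)

section sets

variable {K Ω : Type} [Field K] [NumberField K] [Field Ω] [Algebra K Ω] [IsAlgClosure K Ω]
  {Y : Type} [Finite Y] [Nonempty Y] (G : Subgroup (Equiv.Perm Y))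

theorem mem_wr (π : Equiv.Perm (Y × Bool)) : π ∈ wr G ↔ π ∈ Wr2X G Y := by
  constructor
  · rintro ⟨h, hh, hx⟩
    exact ⟨⟨h, hh⟩, hx⟩
  · rintro ⟨⟨h, hh⟩, hx⟩
    exact ⟨h, hh, hx⟩

/-- the two descriptions of the extensions with group `wr G` -/
theorem galx_iff (L : IntermediateField K Ω) : L ∈ GalX K Ω (wr G) (Y × Bool) ↔
    Module.finrank K L = 2 * Nat.card Y ∧ IsWrX K Ω G Y L := by
  have i1 : IsAlgClosed Ω := IsAlgClosure.isAlgClosed K
  constructor
  · rintro ⟨hfd, e, h1, h2⟩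
    refine ⟨?_, e, fun π => ⟨fun hπ => ?_, fun hπ => ?_⟩⟩
    · have h3 : Nat.card (L →ₐ[K] Ω) = Module.finrank K L := by
        rw [← AlgHom.card K L Ω, Nat.card_eq_fintype_card]
      rw [← h3, Nat.card_congr e, Nat.card_prod, Nat.card_eq_fintype_card (α := Bool),
        Fintype.card_bool, mul_comm]
    · exact h1 ⟨π, (mem_wr G π).mpr hπ⟩
    · obtain ⟨σ, hσ⟩ := hπ
      obtain ⟨h, hh⟩ := h2 σ
      have h3 : π = h.1 := by
        ext1 x
        obtain ⟨φ, rfl⟩ := e.surjective x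
        rw [← hσ φ, hh φ]
        rfl
      rw [h3]
      exact (mem_wr G _).mp h.2
  · rintro ⟨hfr, e, he⟩
    have hpos : 0 < Nat.card Y := Nat.card_pos
    have hfd : FiniteDimensional K L := FiniteDimensional.of_finrank_pos (by omega)
    refine ⟨hfd, e, fun h => ?_, fun σ => ?_⟩
    · obtain ⟨σ, hσ⟩ := (he h.1).mp ((mem_wr G _).mp h.2)
      exact ⟨σ, fun φ => hσ φ⟩
    · let f : (L →ₐ[K] Ω) ≃ (L →ₐ[K] Ω) :=
        { toFun := fun φ => σ.toAlgHom.comp φ
          invFun := fun φ => σ.symm.toAlgHom.comp φ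
          left_inv := fun φ => by ext x; simp
          right_inv := fun φ => by ext x; simp }
      have h1 : ∀ φ : L →ₐ[K] Ω, e (σ.toAlgHom.comp φ) = (e.permCongr f) (e φ) := by
        intro φ
        rw [Equiv.permCongr_apply, Equiv.symm_apply_apply]
        rfl
      have h2 := (he (e.permCongr f)).mpr ⟨σ, h1⟩
      exact ⟨⟨e.permCongr f, (mem_wr G _).mpr h2⟩, fun φ => h1 φ⟩

end sets

/-- dyadic summation -/
theorem dyadic {ι : Type} (g : ι → ℕ) (hg : ∀ i, 1 ≤ g i) (C : ℝ) (hC : 0 ≤ C)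
    (hcount : ∀ j : ℕ, ∀ s : Finset ι, (∀ i ∈ s, g i ≤ 2 ^ (j + 1)) →
      (s.card : ℝ) ≤ C * 2 ^ (j + 1)) :
    Summable (fun i => (g i : ℝ) ^ (-(5 / 4) : ℝ)) := by
  classical
  set r : ℝ := (2 : ℝ) ^ (-(1 / 4) : ℝ) with hr
  have hr0 : 0 < r := Real.rpow_pos_of_pos (by norm_num) _
  have hr1 : r < 1 := Real.rpow_lt_one_of_one_lt_of_neg (by norm_num) (by norm_num)
  have hgeo : Summable (fun j : ℕ => r ^ j) := summable_geometric_of_lt_one hr0.le hr1
  refine summable_of_sum_le (c := 2 * C * ∑' j : ℕ, r ^ j) (fun i => by positivity) ?_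
  intro s
  calc ∑ i ∈ s, (g i : ℝ) ^ (-(5 / 4) : ℝ)
      = ∑ j ∈ s.image (fun i => Nat.log 2 (g i)), ∑ i ∈ s with Nat.log 2 (g i) = j,
          (g i : ℝ) ^ (-(5 / 4) : ℝ) :=
        (Finset.sum_fiberwise_of_maps_to (fun i hi => Finset.mem_image_of_mem _ hi) _).symm
    _ ≤ ∑ j ∈ s.image (fun i => Nat.log 2 (g i)), 2 * C * r ^ j := by
        refine Finset.sum_le_sum fun j _ => ?_
        have h1 : ∀ i ∈ s.filter (fun i => Nat.log 2 (g i) = j),
            (g i : ℝ) ^ (-(5 / 4) : ℝ) ≤ ((2 : ℝ) ^ j) ^ (-(5 / 4) : ℝ) := by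
          intro i hi
          have h2 := (Finset.mem_filter.1 hi).2
          have h3 : 2 ^ j ≤ g i := by
            rw [← h2]
            exact Nat.pow_log_le_self 2 (by have := hg i; omega)
          have h4 : ((2 : ℝ) ^ j) ≤ g i := by exact_mod_cast h3
          exact Real.rpow_le_rpow_of_nonpos (by positivity) h4 (by norm_num)
        have h2 := Finset.sum_le_sum h1
        rw [Finset.sum_const, nsmul_eq_mul] at h2
        refine h2.trans ?_
        have h3 := hcount j (s.filter (fun i => Nat.log 2 (g i) = j)) (by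
          intro i hi
          have h2 := (Finset.mem_filter.1 hi).2
          rw [← h2]
          exact (Nat.lt_pow_succ_log_self (by norm_num) (g i)).le)
        have h4 := mul_le_mul_of_nonneg_right h3
          (by positivity : (0 : ℝ) ≤ ((2 : ℝ) ^ j) ^ (-(5 / 4) : ℝ))
        refine h4.trans (le_of_eq ?_)
        have h5 : (2 : ℝ) ^ j * ((2 : ℝ) ^ j) ^ (-(5 / 4) : ℝ) = r ^ j := by
          have h6 : (2 : ℝ) ^ j = ((2 : ℝ) ^ j) ^ (1 : ℝ) := (Real.rpow_one _).symm
          have h7 : (0 : ℝ) < (2 : ℝ) ^ j := by positivity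
          conv_lhs =>
            enter [1]
            rw [h6]
          rw [← Real.rpow_add h7, hr, ← Real.rpow_natCast, ← Real.rpow_natCast,
            ← Real.rpow_mul (by norm_num), ← Real.rpow_mul (by norm_num)]
          congr 1
          ring
        rw [pow_succ]
        calc C * ((2 : ℝ) ^ j * 2) * ((2 : ℝ) ^ j) ^ (-(5 / 4) : ℝ)
            = 2 * C * ((2 : ℝ) ^ j * ((2 : ℝ) ^ j) ^ (-(5 / 4) : ℝ)) := by ring
          _ = _ := by rw [h5]
    _ = 2 * C * ∑ j ∈ s.image (fun i => Nat.log 2 (g i)), r ^ j := by rw [Finset.mul_sum]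
    _ ≤ 2 * C * ∑' j : ℕ, r ^ j := by
        refine mul_le_mul_of_nonneg_left ?_ (by positivity)
        exact hgeo.sum_le_tsum _ (fun j _ => by positivity)

theorem t_ITR : S_ITR := by
  intro K Ω _ _ _ _ _ Y _ _ G hfin hlim
  obtain ⟨c, hc, hlim⟩ := hlim
  let S : ℝ → Set (IntermediateField K Ω) := fun Z => {L : IntermediateField K Ω |
    Module.finrank K L = 2 * Nat.card Y ∧ IsWrX K Ω G Y L ∧ dsc L ≤ Z * 1}
  have hS : ∀ Z, 0 < Z → (S Z).Finite := hfin
  have hlim' : Tendsto (fun Z : ℝ => ((S Z).ncard : ℝ) / Z) atTop (𝓝 c) := hlim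
  -- a nonempty set
  have hne : (GalX K Ω (wr G) (Y × Bool)).Nonempty := by
    have h1 := (hlim'.eventually (lt_mem_nhds hc)).and (eventually_gt_atTop 0)
    obtain ⟨Z, hZ, hZ0⟩ := h1.exists
    have h2 : (S Z).ncard ≠ 0 := by
      intro h0
      rw [h0, Nat.cast_zero, zero_div] at hZ
      exact lt_irrefl _ hZ
    have h3 : (S Z).Nonempty := by
      rw [Set.nonempty_iff_ne_empty]
      intro h0
      rw [h0, Set.ncard_empty] at h2
      exact h2 rfl
    obtain ⟨L, hL⟩ := h3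
    exact ⟨L, (galx_iff G L).mpr ⟨hL.1, hL.2.1⟩⟩
  refine ⟨hne, ?_⟩
  -- the upper bound for the number
  obtain ⟨Z0, hZ0⟩ := eventually_atTop.mp (hlim'.eventually (gt_mem_nhds (lt_add_one c)))
  let Z1 : ℝ := max Z0 1
  have hZ1 : 1 ≤ Z1 := le_max_right _ _
  have hub : ∀ Z, Z1 ≤ Z → ((S Z).ncard : ℝ) ≤ (c + 1) * Z := by
    intro Z hZ
    have hZpos : 0 < Z := by linarith
    have h1 := hZ0 Z ((le_max_left _ _).trans hZ)
    exact ((div_lt_iff₀ hZpos).mp h1).le
  have hub2 : ∀ Z, 1 ≤ Z → ((S Z).ncard : ℝ) ≤ ((c + 1) * Z1) * Z := by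
    intro Z hZ
    rcases le_total Z1 Z with h | h
    · refine (hub Z h).trans ?_
      have h2 : (c + 1) * 1 ≤ (c + 1) * Z1 := mul_le_mul_of_nonneg_left hZ1 (by linarith)
      rw [mul_one] at h2
      exact mul_le_mul_of_nonneg_right h2 (by linarith)
    · have h1 : ((S Z).ncard : ℝ) ≤ (S Z1).ncard := by
        have h2 : (S Z).ncard ≤ (S Z1).ncard := by
          refine Set.ncard_le_ncard ?_ (hS Z1 (by linarith))
          intro L hL
          exact ⟨hL.1, hL.2.1, hL.2.2.trans (mul_le_mul_of_nonneg_right h (by norm_num))⟩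
        exact_mod_cast h2
      refine h1.trans ((hub Z1 le_rfl).trans ?_)
      have h3 : 0 ≤ (c + 1) * Z1 := by positivity
      nlinarith
  -- the discriminants are natural numbers
  have hnf : ∀ M : GalX K Ω (wr G) (Y × Bool), NumberField M.1 := fun M => by
    have : FiniteDimensional K M.1 := M.2.1
    exact nf _
  let g : GalX K Ω (wr G) (Y × Bool) → ℕ := fun M =>
    (@discr M.1 _ (hnf M)).natAbs
  have hgd : ∀ M, dsc M.1 = (g M : ℝ) := fun M => by
    have := hnf M
    exact dsc_eq M.1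
  have hg1 : ∀ M, 1 ≤ g M := fun M => by
    have := hnf M
    exact one_le M.1
  have hsum := dyadic g hg1 ((c + 1) * Z1) (by positivity) (by
    intro j s hs
    have h1 : (s.map ⟨Subtype.val, Subtype.val_injective⟩).card ≤ (S (2 ^ (j + 1))).ncard := by
      rw [← Set.ncard_coe_finset]
      refine Set.ncard_le_ncard ?_ (hS _ (by positivity))
      intro x hx
      rw [Finset.mem_coe, Finset.mem_map] at hx
      obtain ⟨M, hM, rfl⟩ := hx
      have h2 := (galx_iff G M.1).mp M.2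
      refine ⟨h2.1, h2.2, ?_⟩
      rw [mul_one]
      change dsc M.1 ≤ _
      rw [hgd]
      exact_mod_cast hs M hM
    rw [Finset.card_map] at h1
    have h2 := hub2 (2 ^ (j + 1)) (one_le_pow₀ (by norm_num))
    refine le_trans ?_ h2
    exact_mod_cast h1)
  simp only [hgd]
  exact hsum

end Pool.Agent.D0H52.MX
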