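import Pool.Agent.D0H64.MX.Stm
import Pool.Agent.TH365.J3099

set_option autoImplicit false

/-! Project MX (helper64), module LAB: labelling of the embeddings. -/

namespace Pool.Agent.D0H52.MX

open Pool.Agent.D0H64.MX Pool.Agent.TH444.ML IntermediateField NumberField
open Pool.Agent.TH365.J3099 (act act_apply act_apply_apply imP ncard_imP)

section wr

variable {H X : Type} [Group H] [MulAction H X]

/-- the permutation `(x, b) ↦ (h x, f x b)` -/
def wrX (p : H × (X → Equiv.Perm Bool)) : Equiv.Perm (X × Bool) where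
  toFun x := (p.1 • x.1, p.2 x.1 x.2)
  invFun y := (p.1⁻¹ • y.1, (p.2 (p.1⁻¹ • y.1)).symm y.2)
  left_inv x := by simp
  right_inv y := by simp

theorem wrX_injective [FaithfulSMul H X] : Function.Injective (wrX (H := H) (X := X)) := by
  rintro ⟨h, f⟩ ⟨h', f'⟩ e
  have e1 : ∀ x : X × Bool, wrX (h, f) x = wrX (h', f') x := fun x => by rw [e]
  have h1 : h = h' := by
    apply eq_of_smul_eq_smul (α := X)
    intro x
    exact congrArg Prod.fst (e1 (x, true))
  subst h1
  have h2 : f = f' := by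
    funext x
    ext b
    exact congrArg Prod.snd (e1 (x, b))
  rw [h2]

theorem range_wrX : Set.range (wrX (H := H) (X := X)) = Wr2X H X := by
  ext π
  constructor
  · rintro ⟨⟨h, f⟩, rfl⟩
    exact ⟨h, fun x => rfl⟩
  · rintro ⟨h, hh⟩
    have inj : ∀ x : X, Function.Injective (fun b : Bool => (π (x, b)).2) := by
      intro x b b' hb
      have h1 : π (x, b) = π (x, b') := by
        apply Prod.ext
        · rw [hh, hh]
        · exact hb
      have h2 := π.injective h1
      exact congrArg Prod.snd h2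
    refine ⟨(h, fun x => Equiv.ofBijective _ (Finite.injective_iff_bijective.1 (inj x))), ?_⟩
    ext1 x
    apply Prod.ext
    · simp [wrX, hh]
    · simp [wrX]

theorem ncard_Wr2X [Finite H] [Finite X] [FaithfulSMul H X] :
    (Wr2X H X).ncard = 2 ^ Nat.card X * Nat.card H := by
  classical
  have : Fintype X := Fintype.ofFinite X
  rw [← range_wrX, ← Set.image_univ, Set.ncard_image_of_injective _ wrX_injective,
    Set.ncard_univ, Nat.card_prod, Nat.card_fun, mul_comm]
  congr 2
  rw [Nat.card_eq_fintype_card, Fintype.card_perm]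
  simp

end wr

section ext

variable {K Ω : Type} [Field K] [Field Ω] [Algebra K Ω]

/-- every embedding of a subfield extends to an automorphism -/
theorem exists_lift [Normal K Ω] (M : IntermediateField K Ω) (ψ : M →ₐ[K] Ω) :
    ∃ σ : Ω ≃ₐ[K] Ω, ∀ m : M, σ m = ψ m := by
  have h1 : Algebra.IsAlgebraic K Ω := inferInstance
  let τ : Ω →ₐ[K] Ω := ψ.liftNormal Ω
  refine ⟨(Algebra.IsAlgebraic.algEquivEquivAlgHom K Ω).symm τ, fun m => ?_⟩
  have h2 : ((Algebra.IsAlgebraic.algEquivEquivAlgHom K Ω).symm τ : Ω →ₐ[K] Ω) = τ :=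
    (Algebra.IsAlgebraic.algEquivEquivAlgHom K Ω).apply_symm_apply τ
  have h3 := congrArg (fun f : Ω →ₐ[K] Ω => f (m : Ω)) h2
  exact h3.trans (ψ.liftNormal_commutes Ω m)

end ext

theorem t_LAB : S_LAB := by
  intro K Ω _ _ _ _ _ H X _ _ _ _ _ L M hLM0
  obtain ⟨⟨hMfd, eM, hg1, hg2⟩, hML, hLfd, hLM, hN⟩ := hLM0
  have i1 : IsAlgClosed Ω := IsAlgClosure.isAlgClosed K
  have i2 : Normal K Ω := IsAlgClosure.normal K Ω
  have i3 : Algebra.IsAlgebraic K Ω := IsAlgClosure.isAlgebraic
  have i4 : Algebra.IsSeparable K Ω := inferInstance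
  have i5 : IsGalois K Ω := ⟨⟩
  have hcM : Nat.card (M →ₐ[K] Ω) = Module.finrank K M := by
    rw [← AlgHom.card K M Ω, Nat.card_eq_fintype_card]
  have hcL : Nat.card (L →ₐ[K] Ω) = Module.finrank K L := by
    rw [← AlgHom.card K L Ω, Nat.card_eq_fintype_card]
  have hMX : Module.finrank K M = Nat.card X := by
    rw [← hcM]
    exact Nat.card_congr eM
  -- the group
  have hnM : nd M = Nat.card H := by
    unfold nd
    rw [← ncard_imP M eM]
    have h1 : imP M eM = Set.range (MulAction.toPermHom H X) := by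
      ext π
      constructor
      · rintro ⟨σ, hσ⟩
        obtain ⟨h, hh⟩ := hg2 σ
        refine ⟨h, ?_⟩
        ext x
        obtain ⟨φ, rfl⟩ := eM.surjective x
        rw [← hσ φ, hh φ]
        rfl
      · rintro ⟨h, rfl⟩
        obtain ⟨σ, hσ⟩ := hg1 h
        exact ⟨σ, fun φ => hσ φ⟩
    have h2 : Function.Injective (MulAction.toPermHom H X) := MulAction.toPerm_injective
    rw [h1, ← Set.image_univ, Set.ncard_image_of_injective _ h2, Set.ncard_univ]
  let i : M →ₐ[K] L := IntermediateField.inclusion hML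
  let r : (L →ₐ[K] Ω) → (M →ₐ[K] Ω) := fun φ => φ.comp i
  have hr : ∀ (σ : Ω ≃ₐ[K] Ω) (φ : L →ₐ[K] Ω), r (act L σ φ) = act M σ (r φ) := fun σ φ => rfl
  choose s hs using fun ψ : M →ₐ[K] Ω => exists_lift M ψ
  have hs1 : ∀ ψ : M →ₐ[K] Ω, act M (s ψ) M.val = ψ := by
    intro ψ
    ext m
    exact hs ψ m
  have hs2 : ∀ ψ : M →ₐ[K] Ω, act M (s ψ)⁻¹ ψ = M.val := by
    intro ψ
    conv_lhs => rw [← hs1 ψ]
    rw [hs1, map_inv, ← hs1 ψ]
    exact (act M (s (act M (s ψ) M.val))).symm_apply_eq.mpr (by rw [hs1, hs1])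
  let F : (L →ₐ[K] Ω) ≃ (M →ₐ[K] Ω) × {φ : L →ₐ[K] Ω // r φ = M.val} :=
    { toFun := fun φ => (r φ, ⟨act L (s (r φ))⁻¹ φ, by rw [hr, hs2]⟩)
      invFun := fun p => act L (s p.1) p.2.1
      left_inv := fun φ => by
        change act L (s (r φ)) (act L (s (r φ))⁻¹ φ) = φ
        rw [← Equiv.Perm.mul_apply, ← map_mul, mul_inv_cancel, map_one, Equiv.Perm.one_apply]
      right_inv := fun p => by
        obtain ⟨a, φ, hφ⟩ := p
        have h1 : r (act L (s a) φ) = a := by rw [hr, hφ, hs1]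
        apply Prod.ext
        · exact h1
        · apply Subtype.ext
          change act L (s (r (act L (s a) φ)))⁻¹ (act L (s a) φ) = φ
          rw [h1, ← Equiv.Perm.mul_apply, ← map_mul, inv_mul_cancel, map_one,
            Equiv.Perm.one_apply] }
  have hMpos : 0 < Module.finrank K M := Module.finrank_pos
  have hc2 : Nat.card {φ : L →ₐ[K] Ω // r φ = M.val} = Nat.card Bool := by
    have h1 := Nat.card_congr F
    rw [Nat.card_prod, hcL, hcM, hLM, mul_comm] at h1
    have h2 := Nat.eq_of_mul_eq_mul_left hMpos h1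
    rw [← h2]
    simp
  let β : {φ : L →ₐ[K] Ω // r φ = M.val} ≃ Bool := (Finite.card_eq.1 hc2).some
  let e : (L →ₐ[K] Ω) ≃ X × Bool := F.trans (Equiv.prodCongr eM β)
  have he1 : ∀ φ, (e φ).1 = eM (r φ) := fun φ => rfl
  have hsub : imP L e ⊆ Wr2X H X := by
    rintro π ⟨σ, hσ⟩
    obtain ⟨h, hh⟩ := hg2 σ
    refine ⟨h, fun x => ?_⟩
    obtain ⟨φ, rfl⟩ := e.surjective x
    rw [← hσ φ, ← act_apply, he1, he1, hr, act_apply]
    exact hh (r φ)
  have heq : imP L e = Wr2X H X := by
    apply Set.eq_of_subset_of_ncard_le hsub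
    rw [ncard_imP L e, ncard_Wr2X]
    have h1 : Module.finrank K (normalClosure K L Ω) = nd L := rfl
    rw [h1, hN, hMX, hnM]
  refine ⟨e, fun φ ψ => ?_, fun π => ?_⟩
  · rw [he1, he1, eM.injective.eq_iff]
    constructor
    · intro h y hy
      exact congrArg (fun f : M →ₐ[K] Ω => f ⟨y, hy⟩) h
    · intro h
      ext m
      exact h (i m) m.2
  · rw [← heq]
    rfl

end Pool.Agent.D0H52.MX
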