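import Pool.Agent.D0H64.MX.Stm
import Pool.Agent.TH365.J3099

set_option autoImplicit false

/-! Project MX (helper64), module MIU: uniqueness of the subfield. -/

namespace Pool.Agent.D0H52.MX

open Pool.Agent.D0H64.MX Pool.Agent.TH444.ML IntermediateField NumberField
open Pool.Agent.TH365.J3099 (act act_apply act_apply_apply imP ncard_imP)

theorem t_MIU : S_LAB → S_MIU := by
  classical
  intro hLAB K Ω _ _ _ _ _ H X _ _ _ _ _ L M M' hM hM'
  obtain ⟨e, he1, he2⟩ := hLAB K Ω H X L M hM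
  obtain ⟨e', he1', -⟩ := hLAB K Ω H X L M' hM'
  obtain ⟨-, hML, hLfd, hLM, -⟩ := hM
  obtain ⟨-, hML', -, hLM', -⟩ := hM'
  have hMM : Module.finrank K M = Module.finrank K M' := by omega
  by_contra hne
  -- the three embeddings
  let φ₀ : L →ₐ[K] Ω := L.val
  let φ₁ : L →ₐ[K] Ω := e.symm ((e φ₀).1, !(e φ₀).2)
  let ψ : L →ₐ[K] Ω := e'.symm ((e' φ₀).1, !(e' φ₀).2)
  have hφ₁ : e φ₁ = ((e φ₀).1, !(e φ₀).2) := e.apply_symm_apply _
  have hψ : e' ψ = ((e' φ₀).1, !(e' φ₀).2) := e'.apply_symm_apply _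
  have hne1 : φ₁ ≠ φ₀ := by
    intro h
    have h1 := congrArg Prod.snd hφ₁
    rw [h] at h1
    exact (Bool.not_ne_self _) h1.symm
  have hne2 : ψ ≠ φ₀ := by
    intro h
    have h1 := congrArg Prod.snd hψ
    rw [h] at h1
    exact (Bool.not_ne_self _) h1.symm
  have hag1 : ∀ y : L, (y : Ω) ∈ M → φ₁ y = φ₀ y :=
    (he1 φ₁ φ₀).mp (by rw [hφ₁])
  have hag2 : ∀ y : L, (y : Ω) ∈ M' → ψ y = φ₀ y :=
    (he1' ψ φ₀).mp (by rw [hψ])
  -- the transposition
  obtain ⟨σ, hσ⟩ := (he2 (Equiv.swap (e φ₀) (e φ₁))).mp (by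
    refine ⟨1, fun x => ?_⟩
    rw [one_smul]
    by_cases h1 : x = e φ₀
    · rw [h1, Equiv.swap_apply_left, hφ₁]
    · by_cases h2 : x = e φ₁
      · rw [h2, Equiv.swap_apply_right, hφ₁]
      · rw [Equiv.swap_apply_of_ne_of_ne h1 h2])
  have hσ0 : σ.toAlgHom.comp φ₀ = φ₁ := by
    apply e.injective
    rw [hσ, Equiv.swap_apply_left]
  have hσM : ∀ y : L, (y : Ω) ∈ M → σ y = y := by
    intro y hy
    have h1 := congrArg (fun f : L →ₐ[K] Ω => f y) hσ0
    exact h1.trans (hag1 y hy)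
  have hσM' : ∀ y : L, (y : Ω) ∈ M' → σ y = y := by
    intro y hy
    by_cases h1 : ψ = φ₁
    · have h2 := congrArg (fun f : L →ₐ[K] Ω => f y) hσ0
      have h3 := hag2 y hy
      rw [h1] at h3
      exact h2.trans h3
    · have h2 : σ.toAlgHom.comp ψ = ψ := by
        apply e.injective
        rw [hσ, Equiv.swap_apply_of_ne_of_ne]
        · exact fun h => hne2 (e.injective h)
        · exact fun h => h1 (e.injective h)
      have h3 := congrArg (fun f : L →ₐ[K] Ω => f y) h2
      have h4 := hag2 y hy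
      change σ (ψ y) = ψ y at h3
      rw [h4] at h3
      exact h3
  have hf1 : σ ∈ M.fixingSubgroup := by
    rw [IntermediateField.mem_fixingSubgroup_iff]
    intro x hx
    exact hσM ⟨x, hML hx⟩ hx
  have hf2 : σ ∈ M'.fixingSubgroup := by
    rw [IntermediateField.mem_fixingSubgroup_iff]
    intro x hx
    exact hσM' ⟨x, hML' hx⟩ hx
  have hf3 : σ ∈ (M ⊔ M').fixingSubgroup := by
    rw [IntermediateField.fixingSubgroup_sup]
    exact ⟨hf1, hf2⟩
  have hS : M ⊔ M' ≤ L := sup_le hML hML'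
  have hSfd : FiniteDimensional K (M ⊔ M' : IntermediateField K Ω) :=
    FiniteDimensional.of_injective (IntermediateField.inclusion hS).toLinearMap
      (IntermediateField.inclusion_injective hS)
  have hMS : M ≤ M ⊔ M' := le_sup_left
  have hMS' : M' ≤ M ⊔ M' := le_sup_right
  have h3 : Module.finrank K M < Module.finrank K (M ⊔ M' : IntermediateField K Ω) := by
    by_contra hcon
    push Not at hcon
    have e1 : M = M ⊔ M' := IntermediateField.eq_of_le_of_finrank_le hMS hcon
    have e2 : M' = M ⊔ M' := IntermediateField.eq_of_le_of_finrank_le hMS' (by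
      rw [← hMM]; exact hcon)
    exact hne (e1.trans e2.symm)
  have h4 : Module.finrank K M ∣ Module.finrank K (M ⊔ M' : IntermediateField K Ω) :=
    IntermediateField.finrank_dvd_of_le_right hMS
  have h5 : Module.finrank K L ≤ Module.finrank K (M ⊔ M' : IntermediateField K Ω) := by
    obtain ⟨k, hk⟩ := h4
    rw [hk, hLM]
    have : 2 ≤ k := by
      by_contra hk2
      have : k ≤ 1 := by omega
      rw [hk] at h3
      nlinarith
    nlinarith
  have h6 : M ⊔ M' = L := IntermediateField.eq_of_le_of_finrank_le hS h5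
  rw [h6, IntermediateField.mem_fixingSubgroup_iff] at hf3
  apply hne1
  rw [← hσ0]
  ext y
  exact hf3 y y.2

end Pool.Agent.D0H52.MX
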